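import Pool.Agent.H.MP_8fbdb2_pr.Conn
import Pool.Agent.H.MP_8fbdb2_pr.Uni
import Pool.Agent.H.MP_8fbdb2_pr.Parts
import Pool.Agent.H.MP_8fbdb2_pr.LevelsB
import Pool.Agent.H.MP_8fbdb2_pr.Final

set_option autoImplicit false

open MeasureTheory Pointwise

namespace Pool.Agent.Results.MP_8fbdb2_pr.ElementaryBall

section Defs

variable {Γ : Type*} [Group Γ]

/-- The Cayley graph of `Γ` for a symmetric set `S`: `g` and `g s` are joined for `s ∈ S`
(loops are dropped). -/
def cayley (S : Finset Γ) : SimpleGraph Γ :=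
  SimpleGraph.fromRel fun g h => ∃ s ∈ S, h = g * s

/-- The class of `g` in the relation `r`, a point of `{0, 1}^(Γ × Γ)`. -/
def part (r : Γ × Γ → Bool) (g : Γ) : Set Γ := {h | r (g, h) = true}

/-- `r` is an equivalence relation with infinitely many classes; every class is infinite and
induces a connected subgraph of the Cayley graph, and is joined by an edge to only finitely many
other classes. -/
structure Admissible (S : Finset Γ) (r : Γ × Γ → Bool) : Prop where
  equivalence : Equivalence fun g h => r (g, h) = true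
  infinitely_many : (Set.range (part r)).Infinite
  infinite : ∀ g, (part r g).Infinite
  connected : ∀ g, ((cayley S).induce (part r g)).Connected
  neighbours : ∀ g, {C | C ∈ Set.range (part r) ∧ C ≠ part r g ∧
    ∃ x ∈ part r g, ∃ y ∈ C, (cayley S).Adj x y}.Finite

/-- The probability measure `μ` on `{0, 1}^(Γ × Γ)` (product σ-algebra) is the law of an invariant
random partition of the Cayley graph: it is invariant under left multiplication by every `h ∈ Γ`
(the class of `g` is sent to the class of `h g`), and almost every point is admissible. -/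
structure IsIRP (S : Finset Γ) (μ : Measure (Γ × Γ → Bool)) : Prop where
  probability : IsProbabilityMeasure μ
  invariant : ∀ h : Γ, μ.map (fun r x => r (h⁻¹ * x.1, h⁻¹ * x.2)) = μ
  admissible : ∀ᵐ r ∂μ, Admissible S r

end Defs

/-- The identity and the twelve elementary matrices `1 ± E_ij`, `i ≠ j`. -/
def gens : Finset (Matrix.SpecialLinearGroup (Fin 3) ℤ) :=
  {1} ∪ (Finset.univ.image fun q : {q : Fin 3 × Fin 3 // q.1 ≠ q.2} =>
      Matrix.SpecialLinearGroup.transvection q.2 (1 : ℤ)) ∪
    (Finset.univ.image fun q : {q : Fin 3 × Fin 3 // q.1 ≠ q.2} =>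
      Matrix.SpecialLinearGroup.transvection q.2 (-1 : ℤ))

open Pool.Agent.IRP

theorem gens_eq : gens = S0 := by
  ext s
  constructor
  · intro hs
    unfold gens at hs
    rw [Finset.mem_union, Finset.mem_union, Finset.mem_image, Finset.mem_image] at hs
    rcases hs with (hs | ⟨q, -, hq⟩) | ⟨q, -, hq⟩
    · rw [Finset.mem_singleton.1 hs]
      exact one_mem_S0
    · have h := E_mem_S0 q.1.1 q.1.2
      unfold E at h
      rw [dif_pos q.2] at h
      rw [← hq]
      exact h
    · have h := E_neg_mem_S0 q.1.1 q.1.2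
      unfold E at h
      rw [dif_pos q.2] at h
      rw [← hq]
      exact h
  · intro hs
    unfold gens
    rw [Finset.mem_union, Finset.mem_union, Finset.mem_image, Finset.mem_image]
    rcases mem_S0_cases hs with rfl | ⟨i, j, hij, rfl | rfl⟩
    · exact Or.inl (Or.inl (Finset.mem_singleton_self _))
    · refine Or.inl (Or.inr ⟨⟨(i, j), hij⟩, Finset.mem_univ _, ?_⟩)
      unfold E
      rw [dif_pos hij]
    · refine Or.inr ⟨⟨(i, j), hij⟩, Finset.mem_univ _, ?_⟩
      unfold E
      rw [dif_pos hij]

theorem gens_pow : gens ^ 12 = S := by rw [gens_eq, S_eq]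

theorem cay_eq : cayley (gens ^ 12) = cay := by
  rw [gens_pow]
  unfold cayley cay
  congr 1
  funext g h
  refine propext ⟨?_, fun hs => ⟨g⁻¹ * h, hs, by group⟩⟩
  rintro ⟨s, hs, rfl⟩
  have : g⁻¹ * (g * s) = s := by group
  rw [this]
  exact hs

/-- For every generic sample the constructed partition has all required properties. -/
theorem nice_of_gen (ω : Om) (hω : Gen ω) :
    Nice (Pool.Agent.IRP.part (Msk ω) (Usk ω)) := by
  apply nice_part
  · exact conn_edgeSet (good ω) (good_symm ω) (good_hyp ω hω)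
  · exact Msk_infinite ω hω
  · intro m
    apply conn_edgeSet
    · rintro v w ⟨h1, h2⟩
      exact ⟨h2, h1⟩
    · rintro v w c ⟨x, hx, _⟩ ⟨y, hy, _⟩ _
      have : NeZero (pr m) := ⟨(pr_prime m).ne_zero⟩
      have hn : chi ω m (c + ((1 - chi ω m c).val : ℤ) • v) = 1 := by
        rw [map_add, map_zsmul, hx, zsmul_eq_mul, mul_one, Int.cast_natCast,
          ZMod.natCast_zmod_val]
        ring
      exact ⟨((1 - chi ω m c).val : ℤ), ⟨hx, hn⟩, ⟨hy, hn⟩⟩
  · exact Usk_int ω
  · exact Msk_disj ω
  · exact Usk_cob ω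
  · intro m A B h1 h2 h3 h4 h5
    exact unicoherence (chi ω m) (chi_ne_zero ω m) A B h1 h2 h3 h4 h5

theorem closure_gens : Subgroup.closure ((gens ^ 12 : Finset G) : Set G) = ⊤ := by
  rw [gens_pow, eq_top_iff, ← closure_E]
  apply Subgroup.closure_mono
  rintro g ⟨i, j, _, rfl⟩
  exact E_mem_S i j

theorem admissible_of_nice {r : G × G → Bool} (h : Nice fun g h => r (g, h)) :
    Admissible (gens ^ 12) r := by
  obtain ⟨h1, h2, h3, h4, h5⟩ := h.frozen
  refine ⟨h1, h2, h3, ?_, ?_⟩
  · rw [cay_eq]
    exact h4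
  · rw [cay_eq]
    intro g
    refine (h5 g).subset ?_
    rintro C ⟨⟨z, rfl⟩, -, x, hx, y, hy, hxy⟩
    refine ⟨y, ⟨x, hx, hxy⟩, ?_⟩
    have hzy : r (z, y) = true := hy
    ext w
    constructor
    · intro hw
      exact h1.trans hzy hw
    · intro hw
      exact h1.trans (h1.symm hzy) hw

/-- **`SL_3(ℤ)` admits an invariant random partition.** -/
theorem result :
    (∀ s ∈ gens ^ 12, s⁻¹ ∈ gens ^ 12) ∧
      Subgroup.closure ((gens ^ 12 : Finset (Matrix.SpecialLinearGroup (Fin 3) ℤ)) :
        Set (Matrix.SpecialLinearGroup (Fin 3) ℤ)) = ⊤ ∧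
      ∃ μ, IsIRP (gens ^ 12) μ := by
  refine ⟨?_, closure_gens, ?_⟩
  · rw [gens_pow]
    exact fun s hs => inv_mem_S hs
  have hunc : Measurable fun (r : G → G → Bool) (x : G × G) => r x.1 x.2 := by
    apply measurable_pi_lambda
    intro x
    exact (measurable_pi_apply x.2).comp (measurable_pi_apply x.1)
  have hcur : Measurable fun (r : G × G → Bool) (g h : G) => r (g, h) := by
    apply measurable_pi_lambda
    intro g
    apply measurable_pi_lambda
    intro h
    exact measurable_pi_apply (g, h)
  have hmeas : Measurable fun (ω : Om) (x : G × G) =>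
      Pool.Agent.IRP.part (Msk ω) (Usk ω) x.1 x.2 := hunc.comp measurable_part
  refine ⟨PP.map fun (ω : Om) (x : G × G) => Pool.Agent.IRP.part (Msk ω) (Usk ω) x.1 x.2,
    Measure.isProbabilityMeasure_map hmeas.aemeasurable, ?_, ?_⟩
  · intro γ
    have hshift : Measurable fun (r : G × G → Bool) (x : G × G) =>
        r (γ⁻¹ * x.1, γ⁻¹ * x.2) := by
      apply measurable_pi_lambda
      intro x
      exact measurable_pi_apply (γ⁻¹ * x.1, γ⁻¹ * x.2)
    rw [Measure.map_map hshift hmeas]
    have hcomp : ((fun (r : G × G → Bool) (x : G × G) => r (γ⁻¹ * x.1, γ⁻¹ * x.2)) ∘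
        fun (ω : Om) (x : G × G) => Pool.Agent.IRP.part (Msk ω) (Usk ω) x.1 x.2) =
        (fun (ω : Om) (x : G × G) => Pool.Agent.IRP.part (Msk ω) (Usk ω) x.1 x.2) ∘ act γ := by
      funext ω x
      exact (part_act γ ω x.1 x.2).symm
    rw [hcomp, ← Measure.map_map hmeas (measurable_act γ), map_act]
  · have hset : MeasurableSet {r : G × G → Bool | Nice fun g h => r (g, h)} :=
      hcur measurableSet_nice
    have h1 : ∀ᵐ r ∂(PP.map fun (ω : Om) (x : G × G) =>
        Pool.Agent.IRP.part (Msk ω) (Usk ω) x.1 x.2), Nice fun g h => r (g, h) := by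
      rw [ae_map_iff hmeas.aemeasurable hset]
      filter_upwards [ae_gen] with ω hω
      exact nice_of_gen ω hω
    exact h1.mono fun r hr => admissible_of_nice hr

end Pool.Agent.Results.MP_8fbdb2_pr.ElementaryBall
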